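import Pool.Agent.Results.MP_e0aac0_nt.PowerSavingIndependence
import Pool.Agent.V11260.MS2

/-!
# Independence of `Ω` at all the shifts in windows around almost all directions
-/

set_option autoImplicit false

namespace Pool.Agent.Results.MP_e0aac0_nt.AlmostAllDirections

open Finset MeasureTheory
open Pool.Agent.Results.MP_e0aac0_nt.PowerSavingIndependence (num NonExceptional Independent)

/-- All the tuples `h` of positive integers with `|h i - α i N| ≤ N ^ θ` for all `i` are such that the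
`[Ω(n + h i) / s]` are independent up to `ε` at the scale `N`: for every `i`, `[Ω(n + h i) / s]` is independent, up to
`ε`, of all the events that depend on the `Ω(n + h j)`, `j ≠ i`, and is distributed as `[Ω(n) / s]`, and the joint law on
the products of sets is the product law. -/
def AllNear {r : ℕ} (s : ℕ) (ε θ : ℝ) (N : ℕ) (α : Fin (r + 1) → ℝ) : Prop :=
  ∀ h : Fin (r + 1) → ℕ, (∀ i, 1 ≤ h i) → (∀ i, |(h i : ℝ) - α i * N| ≤ (N : ℝ) ^ θ) → Independent s ε N h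

lemma win_iff {r : ℕ} {θ : ℝ} {N : ℕ} {α : Fin (r + 1) → ℝ} {h : Fin (r + 1) → ℕ} :
    Pool.Agent.V11260.MS.Win (fun _ : Fin (r + 1) => 1) θ N α h ↔
      (∀ i, 1 ≤ h i) ∧ ∀ i, |(h i : ℝ) - α i * N| ≤ (N : ℝ) ^ θ := by
  unfold Pool.Agent.V11260.MS.Win
  simp

open Classical in
/-- Let `K` and `r` be integers and `ε > 0`. There is a `θ > 0` such that almost all `α` in `[0, K] ^ (r + 1)` (Lebesgue
measure) have the following properties. (1) For all but at most `G X ^ (1 - θ)` of the `N ≤ X`, for every `X` (`G`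
depends on `α`), ALL the tuples `h` of positive integers with `|h i - α i N| ≤ N ^ θ` for all `i` have the property that
the integer parts of the `Ω(n + h i) / 2`, `n ≤ N`, are independent up to `ε`. (2) There are arbitrarily large `N` such
that for ALL the tuples `h` of positive integers with `|h i - α i N| ≤ N ^ θ` the `Ω(n + h i)`, `n ≤ N`, are
independent up to `ε`. -/
theorem result (K r : ℕ) (ε : ℝ) (hε : 0 < ε) :
    ∃ θ : ℝ, 0 < θ ∧ ∀ᵐ α : Fin (r + 1) → ℝ, (∀ i, 0 ≤ α i ∧ α i ≤ K) →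
      (∃ G : ℝ, ∀ X : ℕ, (((Icc 1 X).filter (fun N => ¬ AllNear 2 ε θ N α)).card : ℝ) ≤ G * (X : ℝ) ^ (1 - θ)) ∧
      ∀ N₁ : ℕ, ∃ N : ℕ, N₁ ≤ N ∧ AllNear 1 ε θ N α := by
  obtain ⟨E, D, hE, hD, δ, hδ, ⟨N₀, hmain⟩, hexc⟩ :=
    Pool.Agent.Results.MP_e0aac0_nt.PowerSavingIndependence.result (K + 1) r ε hε
  obtain ⟨N₁, hN₁⟩ := Pool.Agent.V11260.MS.len_ok (K := K) (D := 1) hδ
  set θ : ℝ := min (δ / (2 * ((r : ℝ) + 2))) 1 with hθ
  have hθ0 : 0 < θ := lt_min (by positivity) one_pos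
  have hθ1 : θ ≤ 1 := min_le_right _ _
  have hη : ((r + 1 : ℕ) : ℝ) * θ + θ < δ := by
    have h1 : ((r : ℝ) + 2) * θ ≤ (r + 2) * (δ / (2 * ((r : ℝ) + 2))) :=
      mul_le_mul_of_nonneg_left (min_le_left _ _) (by positivity)
    have h2 : ((r : ℝ) + 2) * (δ / (2 * ((r : ℝ) + 2))) = δ / 2 := by
      field_simp
    push_cast
    linarith
  have hθd : ∀ i : Fin (r + 1), θ ≤ 1 / (((fun _ => 1 : Fin (r + 1) → ℕ) i : ℕ) : ℝ) := by
    intro i
    simpa using hθ1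
  -- the admissible lengths
  have hx : ∀ N : ℕ, 1 ≤ N → N₁ ≤ N → ∀ i : Fin (r + 1),
      Pool.Agent.V11260.MS.len K ((fun _ => 1 : Fin (r + 1) → ℕ) i) N ≤ (K + 1) * N ∧
      (N : ℝ) ^ (1 - δ) ≤ (Pool.Agent.V11260.MS.len K ((fun _ => 1 : Fin (r + 1) → ℕ) i) N : ℝ) := by
    intro N hN hNN i
    have h1 := Pool.Agent.V11260.MS.len_pow (K := K) (d := 1) (N := N) le_rfl
    have h2 := hN₁ N hNN hN 1 le_rfl le_rfl
    simp only [pow_one] at h1 h2
    exact ⟨h1, h2⟩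
  -- the bounds for the numbers of the bad tuples
  have hc2 : ∀ N : ℕ, 1 ≤ N → (N₀ + N₁ ≤ N) →
      Pool.Agent.V11260.MS.cnt K (fun _ : Fin (r + 1) => 1) N {h | ¬ Independent 2 ε N h} ≤
        (∏ i : Fin (r + 1), (Pool.Agent.V11260.MS.len K ((fun _ => 1 : Fin (r + 1) → ℕ) i) N : ℝ)) *
          (N : ℝ) ^ (-δ) := by
    intro N hN hP
    have h1 := (hmain N (by omega) _ (hx N hN (by omega))).1
    refine le_trans (le_of_eq ?_) h1
    unfold Pool.Agent.V11260.MS.cnt num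
    congr!
  have hc1 : ∀ N : ℕ, 1 ≤ N → (N₀ + N₁ ≤ N ∧ NonExceptional E D N) →
      Pool.Agent.V11260.MS.cnt K (fun _ : Fin (r + 1) => 1) N {h | ¬ Independent 1 ε N h} ≤
        (∏ i : Fin (r + 1), (Pool.Agent.V11260.MS.len K ((fun _ => 1 : Fin (r + 1) → ℕ) i) N : ℝ)) *
          (N : ℝ) ^ (-δ) := by
    intro N hN hP
    have h1 := (hmain N (by omega) _ (hx N hN (by omega))).2 hP.2
    refine le_trans (le_of_eq ?_) h1
    unfold Pool.Agent.V11260.MS.cnt num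
    congr!
  obtain ⟨v, hv1, hv2⟩ := Pool.Agent.V11260.MS.exists_seq
    (P := fun N => N₀ + N₁ ≤ N ∧ NonExceptional E D N) (fun N₂ => by
      obtain ⟨N, h1, h2⟩ := hexc (N₂ + N₀ + N₁)
      exact ⟨N, by omega, by omega, h2⟩)
  have key1 := Pool.Agent.V11260.MS.ae_windows (fun _ : Fin (r + 1) => 1) K
    (fun N => {h : Fin (r + 1) → ℕ | ¬ Independent 2 ε N h}) (fun N => N₀ + N₁ ≤ N) hθd hη hc2
  have key2 := Pool.Agent.V11260.MS.ae_windows_seq (fun _ : Fin (r + 1) => 1) K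
    (fun N => {h : Fin (r + 1) → ℕ | ¬ Independent 1 ε N h}) (fun N => N₀ + N₁ ≤ N ∧ NonExceptional E D N) hθd
    hc1 v (fun n => ⟨Nat.one_le_two_pow.trans (hv1 n), hv2 n⟩)
    (Pool.Agent.V11260.MS.summable_seq hv1 (by linarith))
  refine ⟨θ, hθ0, ?_⟩
  filter_upwards [key1, key2] with α h1 h2 hα
  refine ⟨?_, fun N₂ => ?_⟩
  · obtain ⟨G, hG⟩ := h1 hα
    refine ⟨((N₀ + N₁ : ℕ) : ℝ) + G, fun X => ?_⟩
    refine le_trans (le_of_eq ?_) (Pool.Agent.V11260.MS.card_of_sums hθ1 (Q := fun N => ¬ AllNear 2 ε θ N α)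
      (N₀ := N₀ + N₁) (G := G) (fun F hF => ?_) X)
    · congr!
    · apply hG F
      intro N hN
      obtain ⟨h3, h4, h5⟩ := hF N hN
      refine ⟨h3, h4, ?_⟩
      unfold AllNear at h5
      push Not at h5
      obtain ⟨h, h6, h7, h8⟩ := h5
      exact ⟨h, win_iff.2 ⟨h6, h7⟩, h8⟩
  · obtain ⟨n₀, h3⟩ := Filter.eventually_atTop.1 (h2 hα)
    refine ⟨v (max n₀ N₂), ?_, fun h h6 h7 => ?_⟩
    · have h4 := hv1 (max n₀ N₂)
      have h5 : max n₀ N₂ < 2 ^ (max n₀ N₂) := Nat.lt_two_pow_self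
      have h6 := le_max_right n₀ N₂
      omega
    · have h4 := h3 (max n₀ N₂) (le_max_left _ _) h (win_iff.2 ⟨h6, h7⟩)
      simpa using h4

end Pool.Agent.Results.MP_e0aac0_nt.AlmostAllDirections
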