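import Pool.Agent.V11296.FP5

/-!
# Exact values of `Ω` at consecutive integers and parities of `Ω` at many other places

For `n` uniform in `{1, …, N}` the vector of the EXACT values `Ω(n), …, Ω(n + K - 1)` and the parities of
`Ω(n + h_1), …, Ω(n + h_d)` are jointly independent (the parities being fair coins) up to `(log N) ^ (-U)` in total
variation, for almost all tuples `(h_1, …, h_d)`, where the number `d` of places may grow like `A log log N`.
-/

set_option autoImplicit false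

namespace Pool.Agent.Results.MP_e0aac0_nt.ExactValuesAndParities

open Finset
open ArithmeticFunction (cardFactors)

/-- The additive energy of order `p` of the family `s 1, …, s x`: the number of the solutions of
`s (v 1) + … + s (v p) = s (w 1) + … + s (w p)` with all `v i`, `w i` in `{1, …, x}`. -/
def energy (p x : ℕ) (s : ℕ → ℤ) : ℕ :=
  (((Fintype.piFinset fun _ : Fin p => Icc 1 x) ×ˢ (Fintype.piFinset fun _ : Fin p => Icc 1 x)).filter
    (fun q => ∑ i, s (q.1 i) = ∑ i, s (q.2 i))).card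

/-- The `d`-tuples of numbers from `1` to `x`. -/
def tuples (d x : ℕ) : Finset (Fin d → ℕ) := Fintype.piFinset fun _ => Icc 1 x

/-- The number of the `n ≤ N` with `Ω(n + j) = ℓ j` for `j = 0, …, K - 1`. -/
def exactly (N K : ℕ) (ℓ : Fin K → ℕ) : ℕ := ((Icc 1 N).filter fun n => ∀ j : Fin K, cardFactors (n + j) = ℓ j).card

/-- The number of the `n ≤ N` with `Ω(n + j) = ℓ j` for `j = 0, …, K - 1` and `Ω(n + h i) ≡ v i` modulo `2` for all `i`. -/
def jointly (N K : ℕ) {d : ℕ} (h : Fin d → ℕ) (ℓ : Fin K → ℕ) (v : Fin d → Fin 2) : ℕ :=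
  ((Icc 1 N).filter fun n => (∀ j : Fin K, cardFactors (n + j) = ℓ j) ∧ ∀ i, cardFactors (n + h i) % 2 = v i).card

theorem result (K p B C A U : ℕ) : ∃ N₀ : ℕ, ∀ N : ℕ, N₀ ≤ N → ∀ (x : ℕ) (s : ℕ → ℕ), (∀ m ∈ Icc 1 x, s m ≤ B * N) →
    (energy p x (fun m => (s m : ℤ)) : ℝ) * N ≤ Real.log N ^ C * (x : ℝ) ^ (2 * p) →
    ∀ d : ℕ, (d : ℝ) ≤ A * Real.log (Real.log N) →
    ∃ T ⊆ tuples d x, (T.card : ℝ) ≤ (x : ℝ) ^ d / Real.log N ^ U ∧ ∀ m ∈ tuples d x, m ∉ T →
      ∑' ℓ : Fin K → ℕ, ∑ v : Fin d → Fin 2, |(jointly N K (fun i => s (m i)) ℓ v : ℝ) - exactly N K ℓ / 2 ^ d| ≤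
        N / Real.log N ^ U := by
  classical
  obtain ⟨N₀, h⟩ := Pool.Agent.V11296.FP.exact K p B C A U
  refine ⟨N₀, fun N hN x s hs hen d hd => ?_⟩
  obtain ⟨T, hT, hTc, hTg⟩ := h N hN x s hs hen d hd
  refine ⟨T, hT, hTc, fun m hm hmT => ?_⟩
  refine le_trans (le_of_eq ?_) (hTg m hm hmT)
  congr 1
  funext ℓ
  refine sum_congr rfl fun v _ => ?_
  have h1 : Pool.Agent.V11296.FP.pat {n | ∀ j : Fin K, cardFactors (n + j) = ℓ j} N (fun i => s (m i))
      (fun i => if v i = 0 then 1 else -1) = (jointly N K (fun i => s (m i)) ℓ v : ℝ) := by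
    rw [Pool.Agent.V11296.FP.pat_card _ _ _ _ (fun i => by
      split_ifs
      · exact Or.inl rfl
      · exact Or.inr rfl)]
    unfold jointly
    congr 1
    apply congrArg card
    ext n
    simp only [mem_filter, Set.mem_ofPred_eq, and_congr_right_iff]
    intro _ _
    refine forall_congr' fun i => ?_
    unfold Pool.Agent.V11296.FP.lr
    have h2 : v i = 0 ∨ v i = 1 := by
      have : ∀ y : Fin 2, y = 0 ∨ y = 1 := by decide
      exact this _
    rcases h2 with h2 | h2
    · rw [h2, if_pos rfl, neg_one_pow_eq_one_iff_even (by norm_num)]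
      exact Nat.even_iff
    · rw [h2, if_neg (by decide), neg_one_pow_eq_neg_one_iff_odd (by norm_num)]
      exact Nat.odd_iff
  have h3 : ∑ n ∈ Icc 1 N, Pool.Agent.V11296.FP.ind {n | ∀ j : Fin K, cardFactors (n + j) = ℓ j} n =
      (exactly N K ℓ : ℝ) := by
    rw [Pool.Agent.V11296.FP.ind_card]
    unfold exactly
    congr 1
    apply congrArg card
    ext n
    simp only [mem_filter, Set.mem_ofPred_eq]
  rw [h1, h3]

end Pool.Agent.Results.MP_e0aac0_nt.ExactValuesAndParities
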