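import Pool.Agent.Results.MP_e0aac0_nt.PowerSavingIndependence
import Pool.Agent.V11260.MS2
import Pool.Agent.V11260.PQT
import Pool.Agent.Y854.GM.WinV

/-!
# Independence of `Ω` at ALL the shifts in the residue classes of typical `p`-adic points
-/

set_option autoImplicit false

namespace Pool.Agent.Results.MP_e0aac0_nt.PadicNeighbourhoods

open Finset MeasureTheory Filter Topology
open Pool.Agent.Results.MP_e0aac0_nt.PowerSavingIndependence (num NonExceptional Independent)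

/-- the exponent of convergence of the sequence `v` is at most `τ` -/
def ExpLe (v : ℕ → ℝ) (τ : ℝ) : Prop := ∀ t : ℝ, τ < t → Summable (fun n : ℕ => (v n) ^ (-t))

/-- All the tuples `h` of positive integers `h i ≤ A N` with `|h i - α i|_p ≤ N ^ (-σ)` for all `i` (that is, `h i` is
congruent to `α i` modulo the least power of `p` which is at least `N ^ σ`) are such that the `[Ω(n + h i) / s]` are
independent up to `ε` at the scale `N`: for every `i`, `[Ω(n + h i) / s]` is independent, up to `ε`, of all the events that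
depend on the `Ω(n + h j)`, `j ≠ i`, and is distributed as `[Ω(n) / s]`, and the joint law on the products of sets is the
product law. -/
def AllNear {p : ℕ} [Fact p.Prime] {r : ℕ} (s : ℕ) (ε : ℝ) (A : ℕ) (σ : ℝ) (N : ℕ) (α : Fin (r + 1) → ℤ_[p]) : Prop :=
  ∀ h : Fin (r + 1) → ℕ, (∀ i, 1 ≤ h i ∧ h i ≤ A * N) → (∀ i, ‖(h i : ℤ_[p]) - α i‖ ≤ (N : ℝ) ^ (-σ)) →
    Independent s ε N h

theorem core (A r s : ℕ) (ε δ : ℝ) (hδ : 0 < δ) (P : ℕ → Prop) (N₀ : ℕ)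
    (hmain : ∀ N : ℕ, N₀ ≤ N → P N → ∀ x : Fin (r + 1) → ℕ, (∀ i, x i ≤ (A + 1) * N ∧ (N : ℝ) ^ (1 - δ) ≤ x i) →
      num (Fintype.piFinset fun i => Icc 1 (x i)) (fun h => ¬ Independent s ε N h) ≤ (∏ i, (x i : ℝ)) * (N : ℝ) ^ (-δ))
    (p : ℕ) [Fact p.Prime] (N : ℕ → ℕ) (hP : ∀ n, P (N n)) (τ σ : ℝ) (hN : ∀ n, 1 ≤ N n) (hτ : 0 ≤ τ)
    (hE : ExpLe (fun n => (N n : ℝ)) τ) (hσ : 0 < σ) :
    ∃ E : Set (Fin (r + 1) → ℤ_[p]), dimH E ≤ ENNReal.ofReal ((r + 1 - min δ 1 + τ) / σ) ∧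
      ∀ α : Fin (r + 1) → ℤ_[p], α ∉ E → ∃ n₀ : ℕ, ∀ n : ℕ, n₀ ≤ n → AllNear s ε A σ (N n) α := by
  classical
  have hv : ∀ n, (1 : ℝ) ≤ (N n : ℝ) := fun n => by exact_mod_cast hN n
  have hv0 : ∀ n, (0 : ℝ) < (N n : ℝ) := fun n => lt_of_lt_of_le one_pos (hv n)
  have htv : Tendsto (fun n => (N n : ℝ)) atTop atTop := Pool.Agent.Y854.GM.tendsto_of_expLe hv0 hτ hE
  obtain ⟨n₁, hn₁⟩ := Filter.eventually_atTop.1 (htv.eventually_ge_atTop (N₀ : ℝ))
  have hr0 : (0 : ℝ) ≤ r := Nat.cast_nonneg r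
  set S : ℕ → Set (Fin (r + 1) → ℕ) := fun n =>
    {h | (∀ i, 1 ≤ h i ∧ h i ≤ (A + 1) * N n) ∧ ¬ Independent s ε (N n) h} with hS
  obtain ⟨E, hE1, hE2⟩ := Pool.Agent.V11260.PQT.padic_seqT p S (v := fun n => (N n : ℝ)) (s := r + 1 - min δ 1) hv hτ hE
    (by linarith [min_le_right δ 1]) hσ n₁ (by
      intro ε' hε'
      refine ⟨((A : ℝ) + 1) ^ (r + 1), fun n hn => ?_⟩
      have hNn : N₀ ≤ N n := by exact_mod_cast hn₁ n hn
      have hx := hmain (N n) hNn (hP n) (fun _ => (A + 1) * N n) (fun i => ⟨le_rfl, by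
        push_cast
        calc ((N n : ℕ) : ℝ) ^ (1 - δ) ≤ ((N n : ℕ) : ℝ) ^ (1 : ℝ) :=
              Real.rpow_le_rpow_of_exponent_le (hv n) (by linarith)
          _ = (N n : ℝ) := Real.rpow_one _
          _ ≤ ((A : ℝ) + 1) * (N n : ℝ) := by
              have : (0 : ℝ) ≤ A := Nat.cast_nonneg A
              nlinarith [hv0 n]⟩)
      have hsub : S n ⊆ (((Fintype.piFinset fun _ : Fin (r + 1) => Icc 1 ((A + 1) * N n)).filter
          (fun h => ¬ Independent s ε (N n) h) : Finset (Fin (r + 1) → ℕ)) : Set (Fin (r + 1) → ℕ)) := by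
        rintro h ⟨h1, h2⟩
        rw [Finset.mem_coe, mem_filter, Fintype.mem_piFinset]
        exact ⟨fun i => mem_Icc.2 (h1 i), h2⟩
      refine ⟨(Finset.finite_toSet _).subset hsub, ?_⟩
      have h1 : ((S n).ncard : ℝ) ≤
          num (Fintype.piFinset fun _ : Fin (r + 1) => Icc 1 ((A + 1) * N n)) (fun h => ¬ Independent s ε (N n) h) := by
        have h2 := (Set.ncard_le_ncard hsub (Finset.finite_toSet _)).trans_eq (Set.ncard_coe_finset _)
        refine (Nat.cast_le.2 h2).trans (le_of_eq ?_)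
        unfold num
        congr!
      refine h1.trans (hx.trans ?_)
      rw [prod_const, card_univ, Fintype.card_fin]
      push_cast
      rw [mul_pow, mul_assoc, ← Real.rpow_natCast (N n : ℝ) (r + 1), ← Real.rpow_add (hv0 n)]
      apply mul_le_mul_of_nonneg_left _ (by positivity)
      apply Real.rpow_le_rpow_of_exponent_le (hv n)
      push_cast
      linarith [min_le_left δ 1])
  refine ⟨E, hE1, fun α hα => ?_⟩
  obtain ⟨n₀, hn₀⟩ := hE2 α hα
  refine ⟨n₀, fun n hn h hh hnear => ?_⟩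
  by_contra hI
  exact hn₀ n hn h ⟨fun i => ⟨(hh i).1, (hh i).2.trans (Nat.mul_le_mul_right _ (Nat.le_succ A))⟩, hI⟩ hnear

/-- Let `A` and `r` be integers and `ε > 0`. There is `0 < δ ≤ 1` such that for every prime `p` and every `σ > 0`:

(1) Let `N_n ≥ 1` be integers of exponent of convergence at most `τ ≥ 0` (for example `b ^ n`, with `τ = 0`). For all `α` in
`ℤ_p ^ (r + 1)` outside a set of Hausdorff dimension at most `(r + 1 - δ + τ) / σ` and all large `n`, for ALL the tuples `h` of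
positive integers `h i ≤ A N_n` with `|h i - α i|_p ≤ N_n ^ (-σ)` for all `i`, the integer parts of the `Ω(n + h i) / 2`,
`n ≤ N_n`, are independent up to `ε`.

(2) For all `α` in `ℤ_p ^ (r + 1)` outside a set of Hausdorff dimension at most `(r + 1 - δ) / σ` there are arbitrarily large
`N` such that for ALL the tuples `h` of positive integers `h i ≤ A N` with `|h i - α i|_p ≤ N ^ (-σ)` for all `i` the
`Ω(n + h i)`, `n ≤ N`, are independent up to `ε`. -/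
theorem result (A r : ℕ) (ε : ℝ) (hε : 0 < ε) :
    ∃ δ : ℝ, 0 < δ ∧ δ ≤ 1 ∧ ∀ (p : ℕ) [Fact p.Prime] (σ : ℝ), 0 < σ →
      (∀ (N : ℕ → ℕ) (τ : ℝ), (∀ n, 1 ≤ N n) → 0 ≤ τ → ExpLe (fun n => (N n : ℝ)) τ →
        ∃ E : Set (Fin (r + 1) → ℤ_[p]), dimH E ≤ ENNReal.ofReal ((r + 1 - δ + τ) / σ) ∧
          ∀ α : Fin (r + 1) → ℤ_[p], α ∉ E → ∃ n₀ : ℕ, ∀ n : ℕ, n₀ ≤ n → AllNear 2 ε A σ (N n) α) ∧
      ∃ E : Set (Fin (r + 1) → ℤ_[p]), dimH E ≤ ENNReal.ofReal ((r + 1 - δ) / σ) ∧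
        ∀ α : Fin (r + 1) → ℤ_[p], α ∉ E → ∀ N₁ : ℕ, ∃ N : ℕ, N₁ ≤ N ∧ AllNear 1 ε A σ N α := by
  obtain ⟨E, D, hE, hD, δ, hδ, ⟨N₀, hmain⟩, hexc⟩ :=
    Pool.Agent.Results.MP_e0aac0_nt.PowerSavingIndependence.result (A + 1) r ε hε
  refine ⟨min δ 1, lt_min hδ one_pos, min_le_right _ _, fun p _ σ hσ => ⟨fun N τ hN hτ hE' => ?_, ?_⟩⟩
  · exact core A r 2 ε δ hδ (fun _ => True) N₀ (fun N hN _ x hx => (hmain N hN x hx).1) p N (fun _ => trivial) τ σ hN hτ
      hE' hσ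
  · obtain ⟨v, hv1, hv2⟩ := Pool.Agent.V11260.MS.exists_seq (P := fun N => NonExceptional E D N) hexc
    obtain ⟨F, hF1, hF2⟩ := core A r 1 ε δ hδ (fun N => NonExceptional E D N) N₀
      (fun N hN hP x hx => (hmain N hN x hx).2 hP) p v hv2 0 σ (fun n => Nat.one_le_two_pow.trans (hv1 n)) le_rfl
      (fun t ht => Pool.Agent.V11260.MS.summable_seq hv1 (by linarith)) hσ
    rw [add_zero] at hF1
    refine ⟨F, hF1, fun α hα N₁ => ?_⟩
    obtain ⟨n₀, hn₀⟩ := hF2 α hα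
    refine ⟨v (max n₀ N₁), ?_, hn₀ _ (le_max_left _ _)⟩
    have h4 := hv1 (max n₀ N₁)
    have h5 : max n₀ N₁ < 2 ^ (max n₀ N₁) := Nat.lt_two_pow_self
    have h6 := le_max_right n₀ N₁
    omega

end Pool.Agent.Results.MP_e0aac0_nt.PadicNeighbourhoods
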